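import Pool.Agent.H643R2.EX.Alph

/-!
# The star height hierarchy is strict when stars are applied to codes of finite delay

The mathematics is in the modules `Pool.Agent.H643R2.*`.
-/

set_option autoImplicit false

namespace Pool.Agent.Results.MP_7ed153_lc.DelayStarHierarchy

open Pool.Agent.H643R2.SH Pool.Agent.H643R2.EX

/-- Restricted model: generalized regular expressions whose stars are only applied to
subexpressions denoting codes with finite deciphering delay from both sides.  Over every finite
alphabet with at least two letters every regular language is denoted by such an expression, and for
every `h` there is a regular language for which the least height of such an expression is exactly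
`h`. -/
theorem result : ∀ (A : Type) [Finite A] (i : Fin 2 → A), Function.Injective i →
    (∀ L : Language A, L.IsRegular → ∃ E : GRE A, DStars E ∧ E.lang = L) ∧
    ∀ h : ℕ, ∃ L : Language A, L.IsRegular ∧
      (∃ E : GRE A, DStars E ∧ E.height = h ∧ E.lang = L) ∧
      ∀ E : GRE A, DStars E → E.lang = L → h ≤ E.height := by
  intro A _ i hi
  exact ⟨fun L hL => exists_expr L hL, fun h => exactA hi h⟩

end Pool.Agent.Results.MP_7ed153_lc.DelayStarHierarchy
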