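import Pool.Agent.H815R3.GSH.Solv

/-!
# Generalized star height and groups with an elementary abelian quotient

The mathematics is in the modules `Pool.Agent.H815R3.GSH.*`.
-/

set_option autoImplicit false

namespace Pool.Agent.Results.MP_7ed153_lc.ElementaryAbelianQuotient

open Pool.Agent.H936R2.SH

/-- If a finite group `G` has a normal subgroup `N` of derived length at most `j + 1` such that
`G / N` is an elementary abelian `p`-group, then all languages recognised by `G` have generalized
star height at most `j + 1`. -/
theorem result : ∀ (α : Type) [Finite α] (p : ℕ) [Fact p.Prime] (j : ℕ)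
    (G : Type) [Group G] [Finite G] (N : Subgroup G) [N.Normal],
    derivedSeries N (j + 1) = ⊥ → (∀ g h : G, g * h * g⁻¹ * h⁻¹ ∈ N) → (∀ g : G, g ^ p ∈ N) →
    ∀ (f : α → G) (S : Set G), HS (j + 1) {w : List α | (w.map f).prod ∈ S} := by
  intro α _ p _ j G _ _ N _ h1 h2 h3 f S
  exact Pool.Agent.H815R3.GSH.solv p j G N h1 h2 h3 f S

end Pool.Agent.Results.MP_7ed153_lc.ElementaryAbelianQuotient
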