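import Pool.Agent.TH733.GSH.Met2

/-!
# Generalized star height and groups with a metabelian quotient of class at most four

The mathematics is in the modules `Pool.Agent.TH733.GSH.*` and `Pool.Agent.H815R3.GSH.*`.
-/

set_option autoImplicit false

namespace Pool.Agent.Results.MP_7ed153_lc.MetabelianClassFour

open Pool.Agent.H936R2.SH

/-- If a finite group `G` has a normal subgroup `D` of derived length at most `j` such that `G / D`
is metabelian and nilpotent of class at most four, then all languages recognised by `G` have
generalized star height at most `j + 1`. -/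
theorem result : ∀ (α : Type) [Finite α] (j : ℕ) (G : Type) [Group G] [Finite G]
    (D : Subgroup G) [D.Normal],
    derivedSeries D j = ⊥ → derivedSeries G 2 ≤ D →
    (⊤ : Subgroup G).lowerCentralSeries 4 ≤ D →
    ∀ (f : α → G) (S : Set G), HS (j + 1) {w : List α | (w.map f).prod ∈ S} := by
  intro α _ j G _ _ D _ h1 h2 h3 f S
  exact Pool.Agent.TH733.GSH.solv4 j G D h1 h2 h3 f S

end Pool.Agent.Results.MP_7ed153_lc.MetabelianClassFour
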