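import Pool.Agent.H815R3.GSH.Nilp

/-!
# Generalized star height and nilpotent groups

The mathematics is in the modules `Pool.Agent.H815R3.GSH.*`.
-/

set_option autoImplicit false

namespace Pool.Agent.Results.MP_7ed153_lc.NilpotentGroups

open Pool.Agent.H936R2.SH

/-- All languages recognised by a finite nilpotent group of class at most `2 ^ (k + 2) - 1` have
generalized star height at most `k + 1`. -/
theorem result : ∀ (α : Type) [Finite α] (k : ℕ) (G : Type) [Group G] [Finite G],
    (⊤ : Subgroup G).lowerCentralSeries (2 ^ (k + 2) - 1) = ⊥ →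
    ∀ (f : α → G) (S : Set G), HS (k + 1) {w : List α | (w.map f).prod ∈ S} := by
  intro α _ k G _ _ h1 f S
  exact Pool.Agent.H815R3.GSH.nilp k G h1 f S

end Pool.Agent.Results.MP_7ed153_lc.NilpotentGroups
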